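import Pool.Agent.H599R3.RH.Fin

/-!
# Every properly relatively hyperbolic diagram group is a nontrivial free product

Diagram groups (definitions in `H540DG`):

* `Pres A` is a semigroup presentation over the alphabet `A`: a set of relations `(u, v)` with
  `u`, `v` nonempty words.
* `OE P` are the oriented edges `(a, r, s, c)` of the Squier complex: they lead from `a u c` to
  `a v c` if `s = true`, and from `a v c` to `a u c` if `s = false`, where `r = (u, v)`.
* `IsPath w L w'`: the list `L` of oriented edges is an edge path from `w` to `w'`.
* `Elem P`: elementary homotopies of edge paths, that is deletion of a backtrack, and replacing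
  one half of the boundary of a square by the other half.
* `DiagramGroup P w`: closed edge paths at `w` modulo elementary homotopies, with concatenation
  (the fundamental group of the Squier complex at `w`).

Relative hyperbolicity (definitions in `Pool.Agent.H599R3.RH`), for subgroups `H i` of `G`:

* `FP H X` is the free product of the groups `H i` and of the free group on `X`, and `nat H X` is
  the natural homomorphism `FP H X → G`.
* `Letter H X`: letters, that is elements of `X`, inverses of elements of `X`, and elements of the
  `H i`;  `wv l` is the value of the word `l` in `FP H X`.
* `AreaLE R x k`: `x` is a product of at most `k` conjugates of elements of `R` and their inverses.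
* `IsHypRel H`: `G` is hyperbolic relative to the `H i` in the sense of Osin: there are finite
  sets `X` and `R` such that `nat H X` is onto with kernel the normal closure of `R`, and a
  constant `C` such that every word `l` representing `1` in `G` has relative area at most
  `C * (length of l)`.
-/

set_option autoImplicit false

namespace Pool.Agent.Results.MP_e6550d_al.FreeProduct

open H540DG Pool.Agent.H599R3.RH

/-- `G` is hyperbolic relative to a nonempty finite collection of proper infinite subgroups. -/
def ProperlyRelHyp (G : Type) [Group G] : Prop :=
  ∃ (n : ℕ) (H : Fin n → Subgroup G), 0 < n ∧ (∀ i, H i ≠ ⊤) ∧ (∀ i, Infinite (H i)) ∧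
    IsHypRel H

/-- **Main theorem.** Every properly relatively hyperbolic diagram group splits as a nontrivial
free product. -/
theorem result {A : Type} (P : Pres A) (w : List A) {G : Type} [Group G]
    (e : G ≃* DiagramGroup P w) (h : ProperlyRelHyp G) :
    ∃ (B C : Type) (_ : Group B) (_ : Group C), Nontrivial B ∧ Nontrivial C ∧
      Nonempty (G ≃* Monoid.Coprod B C) := by
  obtain ⟨n, H, hn, hprop, hinf, hH⟩ := h
  exact main w (e.trans (dgEquiv P w)) (⟨0, hn⟩ : Fin n) H hprop (hinf _) hH

end Pool.Agent.Results.MP_e6550d_al.FreeProduct
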